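import Mathlib
import Pool.Agent.Y896.SH.X2
import Pool.Agent.Y171.SH.NP
import Pool.Agent.Y974.SH.M

/-!
# MP_981724_an: skew-hermitian operators on spaces almost isometric to Hilbert space

`numRange`, `ContainsEuclideanPlane` and `HasComplexSubspace` (numerical range, isometric copy of
`ℓ₂²`, nonzero subspace with a norm-compatible complex structure) are those of the starting file
`NoComplexSubspace`.
-/

set_option autoImplicit false

open Filter Topology Set
open scoped BoundedContinuousFunction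

namespace Pool.Agent.Results.MP_981724_an.AlmostHilbert

open Pool.Agent.Results.MP_981724_an.NoComplexSubspace
open Pool.Agent.Y896.SH

/-- **Negative answer, arbitrarily close to Hilbert space.** For every `ε > 0` there are a real
Banach space `X`, a linear isomorphism `e` of a separable real Hilbert space `H` onto `X` with
`‖h‖ ≤ ‖e h‖ ≤ (1 + ε) ‖h‖`, and a skew-hermitian operator `T` on `X` with `‖T² + I‖ ≤ ε`, such that
`X` is uniformly convex, contains no isometric copy of the Euclidean plane, and no nonzero subspace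
of `X` carries a norm-compatible complex structure. -/
theorem result (ε : ℝ) (hε : 0 < ε) :
    ∃ (X : Type) (_ : NormedAddCommGroup X) (_ : NormedSpace ℝ X) (_ : CompleteSpace X)
      (T : X →L[ℝ] X) (H : Type) (_ : NormedAddCommGroup H) (_ : InnerProductSpace ℝ H)
      (_ : CompleteSpace H) (_ : TopologicalSpace.SeparableSpace H) (e : H ≃L[ℝ] X),
      T ≠ 0 ∧ numRange T = {0} ∧ ¬ ContainsEuclideanPlane X ∧ ¬ HasComplexSubspace X ∧
      ‖T.comp T + ContinuousLinearMap.id ℝ X‖ ≤ ε ∧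
      (∀ h, ‖h‖ ≤ ‖e h‖ ∧ ‖e h‖ ≤ (1 + ε) * ‖h‖) ∧ UniformConvexSpace X := by
  obtain ⟨c, hc, hcε, hc1⟩ : ∃ c : ℝ, 0 < c ∧ c ≤ ε ∧ c < 1 :=
    ⟨min ε (1 / 2), by positivity, min_le_left _ _, (min_le_right _ _).trans_lt (by norm_num)⟩
  obtain ⟨H, i1, i2, i3, i4, i5, T, hT, hT2, hW⟩ := Pool.Agent.Y974.SH.t_M (c / (1 + c)) (by positivity)
  obtain ⟨φ, hφ⟩ : ∃ φ : H →L[ℝ] ((ℕ × ℝ) →ᵇ ℝ), φ = iota hc.le hT := ⟨_, rfl⟩
  have hφF : ∀ h p, φ h p = F c T h p := by
    intro h p; rw [hφ]; rfl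
  have hφn : ∀ h, ‖φ h‖ ≤ c * ‖h‖ := by
    intro h; rw [hφ]; exact norm_iota_le hc.le hT h
  have hφU : ∀ s h, ‖φ (U T s h)‖ ≤ ‖φ h‖ := by
    intro s h; rw [hφ]; exact norm_iota_U_le hc.le hT s h
  have hle : ∀ h, ‖ee φ h‖ ≤ (1 + c) * ‖h‖ := fun h => gm_le φ hc.le hφn h
  have hge : ∀ h, ‖h‖ ≤ ‖ee φ h‖ := fun h => norm_le_gm φ h
  have hsq : ‖(conj φ T).comp (conj φ T) + ContinuousLinearMap.id ℝ (XS φ)‖ ≤ c := by
    refine ContinuousLinearMap.opNorm_le_bound _ hc.le fun x => ?_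
    obtain ⟨h, rfl⟩ := (ee φ).surjective x
    have e1 : ((conj φ T).comp (conj φ T) + ContinuousLinearMap.id ℝ (XS φ)) (ee φ h) =
        ee φ ((T.comp T + ContinuousLinearMap.id ℝ H) h) := by
      show conj φ T (conj φ T (ee φ h)) + ee φ h = _
      rw [conj_apply, conj_apply, ← map_add]
      rfl
    rw [e1]
    have h1 : ‖(T.comp T + ContinuousLinearMap.id ℝ H) h‖ ≤ c / (1 + c) * ‖h‖ :=
      ((T.comp T + ContinuousLinearMap.id ℝ H).le_opNorm h).trans
        (mul_le_mul_of_nonneg_right hT2 (norm_nonneg _))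
    calc ‖ee φ ((T.comp T + ContinuousLinearMap.id ℝ H) h)‖
        ≤ (1 + c) * ‖(T.comp T + ContinuousLinearMap.id ℝ H) h‖ := hle _
      _ ≤ (1 + c) * (c / (1 + c) * ‖h‖) := mul_le_mul_of_nonneg_left h1 (by positivity)
      _ = c * ‖h‖ := by field_simp
      _ ≤ c * ‖ee φ h‖ := mul_le_mul_of_nonneg_left (hge h) hc.le
  have hnp : ∀ x y : XS φ, (∀ a b : ℝ, ‖a • x + b • y‖ = √(a ^ 2 + b ^ 2)) → False :=
    fun x y hxy => no_plane' hc hT Pool.Agent.Y171.SH.t_NP hW φ hφF x y hxy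
  refine ⟨XS φ, inferInstance, inferInstance, XS_complete φ, conj φ T, H, i1, i2, i3, i4, ee φ,
    ?_, numRange_zero hT φ hφU, ?_, ?_, hsq.trans hcε, fun h => ⟨hge h, ?_⟩, XS_uniformConvex φ⟩
  · intro h0
    have h1 := hsq
    rw [h0, ContinuousLinearMap.comp_zero, zero_add] at h1
    obtain ⟨h, hh⟩ := exists_ne (0 : H)
    have h2 := (ContinuousLinearMap.id ℝ (XS φ)).le_of_opNorm_le h1 (ee φ h)
    have h3 : 0 < ‖ee φ h‖ := (norm_pos_iff.2 hh).trans_le (hge h)
    have h4 : ‖(ContinuousLinearMap.id ℝ (XS φ)) (ee φ h)‖ = ‖ee φ h‖ := rfl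
    rw [h4] at h2
    nlinarith
  · rintro ⟨j⟩
    refine hnp (j (EuclideanSpace.single 0 1)) (j (EuclideanSpace.single 1 1)) fun a b => ?_
    rw [← map_smul, ← map_smul, ← map_add, j.norm_map, EuclideanSpace.norm_eq]
    simp
  · rintro ⟨Z, J, hZ, -, hJ⟩
    obtain ⟨f, g, h⟩ := plane_of_complex (E := XS φ) Z J hZ hJ
    exact hnp f g h
  · refine (hle h).trans (mul_le_mul_of_nonneg_right ?_ (norm_nonneg _))
    linarith

end Pool.Agent.Results.MP_981724_an.AlmostHilbert
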